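import Mathlib

/-!
# Reset tuples of `m`-primitive automata
-/

namespace Pool.Agent.X230.MPrim

open Finset

variable {m n : ℕ}

/-- The action of a word. -/
def act (a : Fin m → Fin n → Fin n) (w : List (Fin m)) (p : Fin n) : Fin n :=
  w.foldl (fun p i => a i p) p

/-- The letter counts of a word. -/
def cv (w : List (Fin m)) : Fin m → ℕ := fun i => w.count i

variable (a : Fin m → Fin n → Fin n)

lemma act_append (w w' : List (Fin m)) (p : Fin n) : act a (w ++ w') p = act a w' (act a w p) := by
  simp [act]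

lemma cv_append (w w' : List (Fin m)) : cv (w ++ w') = cv w + cv w' := by
  funext i
  simp [cv, List.count_append]

lemma cv_cons (i : Fin m) (w : List (Fin m)) : cv (i :: w) = Pi.single i 1 + cv w := by
  funext j
  by_cases h : j = i
  · subst h
    simp [cv]
    omega
  · simp [cv, List.count_cons_of_ne (Ne.symm h), Pi.single_eq_of_ne h]

/-- pigeonhole -/
lemma exists_loop (w : List (Fin m)) (p : Fin n) (hw : n ≤ w.length) :
    ∃ x y z : List (Fin m), w = x ++ y ++ z ∧ y ≠ [] ∧ y.length ≤ n ∧
      act a y (act a x p) = act a x p := by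
  have h1 : ∃ t t' : Fin (n + 1), t ≠ t' ∧ act a (w.take t) p = act a (w.take t') p := by
    by_contra! h
    have hinj : Function.Injective (fun t : Fin (n + 1) => act a (w.take t) p) := by
      intro t t' ht
      by_contra hne
      exact h t t' hne ht
    have := Fintype.card_le_of_injective _ hinj
    simp at this
  obtain ⟨t, t', hlt, h2⟩ : ∃ t t' : Fin (n + 1), t < t' ∧
      act a (w.take t) p = act a (w.take t') p := by
    obtain ⟨t, t', hne, h2⟩ := h1
    rcases lt_or_gt_of_ne hne with h | h
    · exact ⟨t, t', h, h2⟩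
    · exact ⟨t', t, h, h2.symm⟩
  have ht' := t'.2
  have htt : (t : ℕ) < (t' : ℕ) := hlt
  refine ⟨w.take t, (w.take t').drop t, w.drop t', ?_, ?_, ?_, ?_⟩
  · have e1 : w.take t = (w.take t').take t := by
      rw [List.take_take, min_eq_left (by omega)]
    rw [e1, List.take_append_drop, List.take_append_drop]
  · intro h
    have := congrArg List.length h
    simp only [List.length_drop, List.length_take, List.length_nil] at this
    omega
  · simp only [List.length_drop, List.length_take]
    omega
  · have e1 : w.take t = (w.take t').take t := by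
      rw [List.take_take, min_eq_left (by omega)]
    rw [← act_append]
    conv_lhs => rw [e1, List.take_append_drop]
    exact h2.symm

/-- short words -/
lemma exists_short {p q : Fin n} : ∀ (k : ℕ) (w : List (Fin m)), w.length = k → act a w p = q →
    ∃ w', act a w' p = q ∧ w'.length ≤ n := by
  intro k
  induction k using Nat.strong_induction_on with
  | _ k ih =>
  intro w hw h
  by_cases hn : w.length ≤ n
  · exact ⟨w, h, hn⟩
  · obtain ⟨x, y, z, rfl, hy, -, hloop⟩ := exists_loop a w p (by omega)
    have hy' : 0 < y.length := List.length_pos_iff.mpr hy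
    refine ih (x ++ z).length ?_ (x ++ z) rfl ?_
    · simp only [List.length_append] at hw ⊢
      omega
    · rw [act_append, act_append, hloop, ← act_append] at h
      exact h

/-- The vectors of the short closed walks. -/
def Short (c : Fin m → Fin (n + 1)) : Prop :=
  ∃ (w : List (Fin m)) (p : Fin n), act a w p = p ∧ ∀ i, w.count i = c i

open Classical in
/-- The set of the vectors of the short closed walks. -/
noncomputable def CC : Finset (Fin m → Fin (n + 1)) := univ.filter (Short a)

/-- the vector as an integer vector -/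
def toZ (c : Fin m → Fin (n + 1)) : Fin m → ℤ := fun i => ((c i : ℕ) : ℤ)

lemma closed_mem_span : ∀ (k : ℕ) (w : List (Fin m)) (p : Fin n), w.length = k →
    act a w p = p → (fun i => ((w.count i : ℕ) : ℤ)) ∈
      Submodule.span ℤ (toZ '' (CC a : Set (Fin m → Fin (n + 1)))) := by
  intro k
  have short : ∀ (w : List (Fin m)) (p : Fin n), w.length ≤ n → act a w p = p →
      (fun i => ((w.count i : ℕ) : ℤ)) ∈
        Submodule.span ℤ (toZ '' (CC a : Set (Fin m → Fin (n + 1)))) := by
    intro w p hw h
    apply Submodule.subset_span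
    refine ⟨fun i => ⟨w.count i, ?_⟩, ?_, rfl⟩
    · have := List.count_le_length (l := w) (a := i)
      omega
    · classical
      simp only [CC, Finset.coe_filter, Finset.mem_univ, true_and, Set.mem_ofPred_eq]
      exact ⟨w, p, h, fun i => rfl⟩
  induction k using Nat.strong_induction_on with
  | _ k ih =>
  intro w p hw h
  by_cases hn : w.length ≤ n
  · exact short w p hn h
  · obtain ⟨x, y, z, rfl, hy, hy2, hloop⟩ := exists_loop a w p (by omega)
    have hy' : 0 < y.length := List.length_pos_iff.mpr hy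
    have h1 := ih (x ++ z).length (by simp only [List.length_append] at hw ⊢; omega) (x ++ z) p
      rfl (by rw [act_append, act_append, hloop, ← act_append] at h; exact h)
    have h2 := short y _ hy2 hloop
    have h3 : (fun i => (((x ++ y ++ z).count i : ℕ) : ℤ)) =
        (fun i => (((x ++ z).count i : ℕ) : ℤ)) + fun i => ((y.count i : ℕ) : ℤ) := by
      funext i
      simp only [List.count_append, Pi.add_apply]
      push_cast
      ring
    rw [h3]
    exact Submodule.add_mem _ h1 h2

/-- The word `w` passes through the state `s`. -/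
def Visits (w : List (Fin m)) (p s : Fin n) : Prop := ∃ x y, w = x ++ y ∧ act a x p = s

/-- There is a word through all states with the letter counts `v`. -/
def AllVisit (p q : Fin n) (v : Fin m → ℕ) : Prop :=
  ∃ w, act a w p = q ∧ cv w = v ∧ ∀ s, Visits a w p s

/-- The vectors that can be added. -/
def Add : AddSubmonoid (Fin m → ℕ) where
  carrier := {u | ∀ p q v, AllVisit a p q v → AllVisit a p q (v + u)}
  zero_mem' := by
    intro p q v h
    rwa [add_zero]
  add_mem' := by
    intro u u' hu hu' p q v h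
    rw [← add_assoc]
    exact hu' p q _ (hu p q v h)

lemma closed_mem_Add {c : List (Fin m)} {s : Fin n} (hc : act a c s = s) : cv c ∈ Add a := by
  rintro p q v ⟨w, h1, h2, h3⟩
  obtain ⟨x, y, rfl, hx⟩ := h3 s
  refine ⟨x ++ c ++ y, ?_, ?_, ?_⟩
  · rw [act_append, act_append, hx, hc]
    rw [act_append, hx] at h1
    exact h1
  · rw [cv_append, cv_append, ← h2, cv_append]
    abel
  · intro s'
    obtain ⟨x', y', h4, h5⟩ := h3 s'
    rcases List.append_eq_append_iff.mp h4 with ⟨z, h6, h7⟩ | ⟨z, h6, h7⟩
    · -- `x' = x ++ z`, `y = z ++ y'`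
      refine ⟨x ++ c ++ z, y', by rw [h7]; simp, ?_⟩
      rw [act_append, act_append, hx, hc]
      rw [h6, act_append, hx] at h5
      exact h5
    · -- `x = x' ++ z`
      exact ⟨x', z ++ c ++ y, by rw [h6]; simp, h5⟩

lemma exists_pure (hn : 0 < n) (i : Fin m) :
    ∃ l : ℕ, 1 ≤ l ∧ l ≤ n ∧ (Pi.single i l : Fin m → ℕ) ∈ Add a := by
  obtain ⟨x, y, z, h1, h2, h3, h4⟩ := exists_loop a (List.replicate n i) ⟨0, hn⟩ (by simp)
  have h5 : ∀ j ∈ y, j = i := by
    intro j hj
    have : j ∈ List.replicate n i := by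
      rw [h1]
      simp [hj]
    exact List.eq_of_mem_replicate this
  have h6 : y = List.replicate y.length i := List.eq_replicate_of_mem h5
  refine ⟨y.length, List.length_pos_iff.mpr h2, h3, ?_⟩
  have h7 := closed_mem_Add a h4
  have h8 : cv y = Pi.single i y.length := by
    rw [h6]
    funext j
    by_cases h : j = i
    · subst h
      simp [cv]
    · simp [cv, List.count_replicate, Ne.symm h]
  rwa [h8] at h7

lemma factorial_mem_Add (hn : 0 < n) (i : Fin m) (z : ℕ) :
    (Pi.single i (n.factorial * z) : Fin m → ℕ) ∈ Add a := by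
  obtain ⟨l, h1, h2, h3⟩ := exists_pure a hn i
  obtain ⟨k, hk⟩ := Nat.dvd_factorial h1 h2
  have h4 : (Pi.single i (n.factorial * z) : Fin m → ℕ) = (k * z) • Pi.single i l := by
    rw [hk]
    funext j
    by_cases h : j = i
    · subst h
      simp
      ring
    · simp [Pi.single_eq_of_ne h]
  rw [h4]
  exact nsmul_mem h3 _

/-- Every state can be reached from every state by a word with the letter counts `α`. -/
def Pos (α : Fin m → ℕ) : Prop := ∀ p q, ∃ w, act a w p = q ∧ cv w = α

lemma exists_through (h : ∀ p q, ∃ w, act a w p = q ∧ w.length ≤ n) (q : Fin n) :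
    ∀ (l : List (Fin n)) (p : Fin n), ∃ w, act a w p = q ∧ w.length ≤ (l.length + 1) * n ∧
      ∀ s ∈ l, Visits a w p s := by
  intro l
  induction l with
  | nil =>
    intro p
    obtain ⟨w, h1, h2⟩ := h p q
    exact ⟨w, h1, by simpa using h2, by simp⟩
  | cons s l ih =>
    intro p
    obtain ⟨x, h1, h2⟩ := h p s
    obtain ⟨w, h3, h4, h5⟩ := ih s
    refine ⟨x ++ w, by rw [act_append, h1, h3], ?_, ?_⟩
    · rw [List.length_append, List.length_cons]
      nlinarith
    · intro s' hs'
      rcases List.mem_cons.mp hs' with rfl | hs'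
      · exact ⟨x, w, rfl, h1⟩
      · obtain ⟨x', y', h6, h7⟩ := h5 s' hs'
        exact ⟨x ++ x', y', by rw [h6]; simp, by rw [act_append, h1, h7]⟩

lemma span_top {α : Fin m → ℕ} (hα : Pos a α) (hn : 0 < n) (v : Fin m → ℤ) :
    v ∈ Submodule.span ℤ (toZ '' (CC a : Set (Fin m → Fin (n + 1)))) := by
  have h1 : ∀ i : Fin m, (Pi.single i 1 : Fin m → ℤ) ∈
      Submodule.span ℤ (toZ '' (CC a : Set (Fin m → Fin (n + 1)))) := by
    intro i
    obtain ⟨w, hw1, hw2⟩ := hα ⟨0, hn⟩ ⟨0, hn⟩
    obtain ⟨w', hw1', hw2'⟩ := hα (a i ⟨0, hn⟩) ⟨0, hn⟩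
    have e1 := closed_mem_span a _ w ⟨0, hn⟩ rfl hw1
    have e2 := closed_mem_span a _ (i :: w') ⟨0, hn⟩ rfl hw1'
    have e3 : (Pi.single i 1 : Fin m → ℤ) = (fun j => (((i :: w').count j : ℕ) : ℤ)) -
        fun j => ((w.count j : ℕ) : ℤ) := by
      funext j
      have c1 := congrFun hw2 j
      have c2 := congrFun hw2' j
      have c3 := congrFun (cv_cons i w') j
      simp only [cv, Pi.add_apply] at c1 c2 c3
      simp only [Pi.sub_apply]
      rw [c3, c1, c2]
      by_cases h : j = i
      · subst h; simp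
      · simp [Pi.single_eq_of_ne h]
    rw [e3]
    exact Submodule.sub_mem _ e2 e1
  have h2 : v = ∑ i, v i • (Pi.single i 1 : Fin m → ℤ) := by
    funext j
    simp [Finset.sum_apply, Pi.single_apply]
  rw [h2]
  exact Submodule.sum_mem _ fun i _ => Submodule.smul_mem _ _ (h1 i)

/-- Large tuples are positive. -/
theorem pos_of_large (hn : 0 < n) {α : Fin m → ℕ} (hα : Pos a α) {N : ℕ}
    (hN : (n + 1) * n + (n + 1) ^ m * n.factorial * n ≤ N) : Pos a (fun _ => N) := by
  classical
  intro p q
  have hshort : ∀ p q, ∃ w, act a w p = q ∧ w.length ≤ n := by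
    intro p q
    obtain ⟨w, h, -⟩ := hα p q
    exact exists_short a _ w rfl h
  obtain ⟨w, hw1, hw2, hw3⟩ := exists_through a hshort q (List.finRange n) p
  rw [List.length_finRange] at hw2
  have hAll : AllVisit a p q (cv w) := ⟨w, hw1, rfl, fun s => hw3 s (List.mem_finRange s)⟩
  have hcv : ∀ i, cv w i ≤ (n + 1) * n := fun i => List.count_le_length.trans hw2
  obtain ⟨x, hx⟩ := (Submodule.mem_span_image_finset_iff_exists_fun' ℤ).mp
    (span_top a hα hn (fun i => (N : ℤ) - cv w i))
  set L := n.factorial with hL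
  have hLpos : 0 < L := Nat.factorial_pos n
  set y : (Fin m → Fin (n + 1)) → ℕ := fun c => (x c % L).toNat with hy
  have hy1 : ∀ c, ((y c : ℕ) : ℤ) = x c % L := fun c =>
    Int.toNat_of_nonneg (Int.emod_nonneg _ (by omega))
  have hy2 : ∀ c, y c ≤ L := by
    intro c
    have := Int.emod_lt_of_pos (x c) (b := (L : ℤ)) (by omega)
    have := hy1 c
    omega
  set z : Fin m → ℤ := fun i => ∑ c ∈ CC a, (x c / L) * toZ c i with hz
  have hsum : ∀ i, (N : ℤ) - cv w i = ((∑ c ∈ CC a, y c * (c i : ℕ) : ℕ) : ℤ) + L * z i := by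
    intro i
    have h1 := congrFun hx i
    simp only [Finset.sum_apply, Pi.smul_apply, smul_eq_mul] at h1
    rw [← h1, hz]
    push_cast
    rw [Finset.mul_sum, ← Finset.sum_add_distrib]
    refine Finset.sum_congr rfl fun c _ => ?_
    have h2 : x c = x c % L + L * (x c / L) := (Int.emod_add_mul_ediv (x c) L).symm
    calc x c * toZ c i = (x c % L + L * (x c / L)) * toZ c i := by rw [← h2]
      _ = _ := by
        rw [← hy1 c]
        simp only [toZ]
        ring
  have hcard : (CC a).card ≤ (n + 1) ^ m := by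
    refine (Finset.card_le_univ _).trans ?_
    simp
  have hbound : ∀ i, ∑ c ∈ CC a, y c * (c i : ℕ) ≤ (n + 1) ^ m * L * n := by
    intro i
    calc ∑ c ∈ CC a, y c * (c i : ℕ) ≤ ∑ _c ∈ CC a, L * n :=
          Finset.sum_le_sum fun c _ => Nat.mul_le_mul (hy2 c) (by have := (c i).2; omega)
      _ = (CC a).card * (L * n) := by rw [Finset.sum_const, smul_eq_mul]
      _ ≤ (n + 1) ^ m * (L * n) := Nat.mul_le_mul_right _ hcard
      _ = _ := by ring
  have hznn : ∀ i, 0 ≤ z i := by
    intro i
    by_contra h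
    push Not at h
    have h1 := hsum i
    have h2 := hbound i
    have h3 := hcv i
    have h4 : (L : ℤ) * z i < 0 := mul_neg_of_pos_of_neg (by exact_mod_cast hLpos) h
    have h5 : ((∑ c ∈ CC a, y c * (c i : ℕ) : ℕ) : ℤ) ≤ (((n + 1) ^ m * L * n : ℕ) : ℤ) := by
      exact_mod_cast h2
    have h6 : ((cv w i : ℕ) : ℤ) ≤ (((n + 1) * n : ℕ) : ℤ) := by exact_mod_cast h3
    have h7 : ((((n + 1) * n + (n + 1) ^ m * L * n : ℕ)) : ℤ) ≤ (N : ℤ) := by exact_mod_cast hN
    push_cast at h1 h5 h6 h7
    linarith
  -- the vector to be added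
  have hadd : (∑ c ∈ CC a, y c • (fun i => ((c i : ℕ) : ℕ)) +
      ∑ i, (Pi.single i (L * (z i).toNat) : Fin m → ℕ)) ∈ Add a := by
    refine add_mem (sum_mem fun c hc => nsmul_mem ?_ _)
      (sum_mem fun i _ => factorial_mem_Add a hn i _)
    rw [CC, Finset.mem_filter] at hc
    obtain ⟨w', p', h1, h2⟩ := hc.2
    have h3 := closed_mem_Add a h1
    have h4 : cv w' = fun i => ((c i : ℕ) : ℕ) := funext h2
    rwa [h4] at h3
  obtain ⟨w2, h1, h2, -⟩ := hadd p q _ hAll
  refine ⟨w2, h1, ?_⟩
  rw [h2]
  funext i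
  simp only [Pi.add_apply, Finset.sum_apply, Pi.smul_apply, smul_eq_mul]
  have h3 : ∑ j, (Pi.single j (L * (z j).toNat) : Fin m → ℕ) i = L * (z i).toNat := by
    simp [Pi.single_apply]
  rw [h3]
  have h4 := hsum i
  have h5 : (((z i).toNat : ℕ) : ℤ) = z i := Int.toNat_of_nonneg (hznn i)
  rw [← h5] at h4
  have h6 : (N : ℤ) = ((cv w i + (∑ c ∈ CC a, y c * (c i : ℕ) + L * (z i).toNat) : ℕ) : ℤ) := by
    push_cast at h4 ⊢
    linarith
  exact_mod_cast h6.symm

end Pool.Agent.X230.MPrim
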